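import Pool.Agent.helper25.PP.Spec

set_option autoImplicit false

namespace PP

open Finset SimpleGraph CT

theorem DN3_sum (K : ℕ) :
    ∑ k ∈ range K, ((k : ℝ) + 4) * (1 / 2) ^ k = 10 - 2 * ((K : ℝ) + 5) * (1 / 2) ^ K := by
  induction K with
  | zero => norm_num
  | succ K ih =>
    rw [sum_range_succ, ih, pow_succ]
    push_cast
    ring

theorem DN3 (h1 : DN1_stmt) (h2 : DN2_stmt) : DN3_stmt := by
  intro V _ _
  classical
  set n := Fintype.card V with hn
  set T := cc (fun _ : SimpleGraph V => True) with hT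
  let P : ℕ → SimpleGraph V → Prop := fun b G => ∃ B : Finset V, B.card = b ∧ 4 * b ≤ ein G B + 6
  let S : Finset ℕ := (range n).filter fun k => 130 * (k + 4) ≤ n
  rcases Nat.eq_zero_or_pos n with h0 | hpos
  · rw [h0]
    simp
  have hnR : (0 : ℝ) < n := by exact_mod_cast hpos
  have hsub : RP (V := V) E1 ⊆ S.biUnion fun k => RP (P (k + 4)) := by
    intro G hG
    rw [mem_cc] at hG
    obtain ⟨hG1, B, hB1, hB2, hB3⟩ := hG
    rw [mem_biUnion]
    refine ⟨B.card - 4, ?_, ?_⟩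
    · rw [mem_filter, mem_range]
      constructor
      · omega
      · omega
    · rw [mem_cc]
      have h4 : B.card - 4 + 4 = B.card := by omega
      rw [h4]
      exact ⟨hG1, B, rfl, hB3⟩
  have hcard : cc (V := V) E1 ≤ ∑ k ∈ S, cc (P (k + 4)) :=
    (card_le_card hsub).trans card_biUnion_le
  have hterm : ∀ k ∈ S, (n : ℝ) * (cc (P (k + 4)) : ℝ) ≤
      150000 * (((k : ℝ) + 4) * (1 / 2) ^ k) * T := by
    intro k hk
    rw [mem_filter] at hk
    have e1 := h1 V (k + 4) (by omega) hk.2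
    have e2 := h2 n (k + 4) (by omega) hk.2
    have e1R : (n : ℝ) ^ (2 * (k + 4) - 3) * (cc (P (k + 4)) : ℝ) ≤
        ((n.choose (k + 4) : ℝ) * (((k + 4).choose 2).choose (2 * (k + 4) - 3) : ℝ)) *
          5 ^ (2 * (k + 4) - 3) * T := by
      exact_mod_cast e1
    have hTR : (0 : ℝ) ≤ T := Nat.cast_nonneg _
    have e3 := e1R.trans (mul_le_mul_of_nonneg_right e2 hTR)
    have hp : (0 : ℝ) < (n : ℝ) ^ (2 * (k + 4) - 3) := pow_pos hnR _
    have e4 : (cc (P (k + 4)) : ℝ) ≤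
        150000 * (((k + 4 : ℕ) : ℝ) / n) * (1 / 2) ^ (k + 4 - 4) * T := by
      refine le_of_mul_le_mul_left (e3.trans (le_of_eq ?_)) hp
      ring
    have e5 := mul_le_mul_of_nonneg_left e4 hnR.le
    refine e5.trans (le_of_eq ?_)
    have h44 : k + 4 - 4 = k := by omega
    rw [h44]
    push_cast
    field_simp
  have hS : ∑ k ∈ S, 150000 * (((k : ℝ) + 4) * (1 / 2) ^ k) * T ≤ 1500000 * (T : ℝ) := by
    have a1 : ∑ k ∈ S, 150000 * (((k : ℝ) + 4) * (1 / 2) ^ k) * (T : ℝ) ≤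
        ∑ k ∈ range n, 150000 * (((k : ℝ) + 4) * (1 / 2) ^ k) * (T : ℝ) := by
      refine sum_le_sum_of_subset_of_nonneg (filter_subset _ _) fun k _ _ => ?_
      positivity
    refine a1.trans ?_
    rw [← sum_mul, ← mul_sum, DN3_sum]
    have hTR : (0 : ℝ) ≤ T := Nat.cast_nonneg _
    refine mul_le_mul_of_nonneg_right ?_ hTR
    have : 0 ≤ 2 * ((n : ℝ) + 5) * (1 / 2) ^ n := by positivity
    linarith
  calc (n : ℝ) * (cc (V := V) E1 : ℝ) ≤ (n : ℝ) * ((∑ k ∈ S, cc (P (k + 4)) : ℕ) : ℝ) := by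
        refine mul_le_mul_of_nonneg_left ?_ hnR.le
        exact_mod_cast hcard
    _ = ∑ k ∈ S, (n : ℝ) * (cc (P (k + 4)) : ℝ) := by
        rw [← mul_sum]
        push_cast
        rfl
    _ ≤ _ := (sum_le_sum hterm).trans hS

end PP
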