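import Pool.Agent.helper25.PP.Spec
import Pool.Agent.helper56.CT.E3

set_option autoImplicit false

namespace PP

open Finset SimpleGraph CT

theorem FV2 (h1 : FT1_stmt) (h2 : GD2_stmt) (h3 : FV1_stmt) (h4 : SWR_stmt) : FV2_stmt := by
  intro V _ _ G v q p hG h6 hqp hvq hnvq hi
  classical
  have hreg : G.IsRegularOfDegree 4 := by
    intro u
    rw [← hG u, Nat.card_eq_fintype_card, Fintype.card_subtype, ← SimpleGraph.card_neighborFinset_eq_degree]
    congr 1
    ext w
    simp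
  obtain ⟨e, he1, he2, he3, he4⟩ := CT.E3 V G hreg
  have hrep : Rep G e := ⟨he1, he2, he3, he4⟩
  obtain ⟨j, hj⟩ := he3 p q hqp.symm
  have hpv : p ≠ v := by
    rintro rfl
    exact hnvq hqp.symm
  set L := ((univ : Finset V).erase v).toList with hL
  have hnd : (v :: L).Nodup := by
    rw [List.nodup_cons]
    refine ⟨?_, Finset.nodup_toList _⟩
    rw [hL, Finset.mem_toList]
    simp
  have hun : (v :: L).toFinset = univ := by
    rw [List.toFinset_cons, hL, Finset.toList_toFinset, Finset.insert_erase (Finset.mem_univ v)]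
  have key := h1 V L e v (p, j) hnd (by rw [hun]; exact he1)
    (by rw [hL, Finset.mem_toList]; simp [hpv]) (by rw [hj]; exact hvq.symm)
  obtain ⟨-, hz⟩ := h3 V G hG h6
  obtain ⟨z, hz1, hz2⟩ := hz e (v :: L) hrep hnd hun
  have hOk : ∀ i : Fin 4, Ok G v (e (v, i)).1 q p := by
    intro i
    obtain ⟨a1, a2⟩ := hi _ (he2 v i)
    exact ⟨he2 v i, hqp, hvq, a1, hnvq, a2⟩
  have hzi : ∀ i : Fin 4, ∃ y : ℤ, Z (-4) (v :: L) (rmt e (v, i) (p, j)) = 16 * y ∧
      (2 : ℤ) ∣ y - bit (sw G v (e (v, i)).1 q p) := by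
    intro i
    have hr := h2 V G e v i (p, j) hrep (by rw [hj]; exact hOk i)
    rw [hj] at hr
    have hf := (h4 V G v (e (v, i)).1 q p hG (hOk i)).1
    obtain ⟨-, hz'⟩ := h3 V _ hf h6
    exact hz' _ (v :: L) hr hnd hun
  choose y hy1 hy2 using hzi
  rw [hz1, Finset.sum_congr rfl (fun i _ => hy1 i), ← Finset.mul_sum, ← mul_add] at key
  have key2 : z + ∑ i, y i = 0 := by
    rcases mul_eq_zero.mp key with h | h
    · norm_num at h
    · exact h
  have hsum : ∑ i ∈ nb G v, bit (sw G v i q p) = ∑ i : Fin 4, bit (sw G v (e (v, i)).1 q p) := by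
    symm
    refine Finset.sum_nbij (fun i => (e (v, i)).1) ?_ ?_ ?_ ?_
    · intro i _
      rw [mem_nb]
      exact he2 v i
    · intro i _ i' _ hii
      exact he4 v i i' hii
    · intro w hw
      rw [Finset.mem_coe, mem_nb] at hw
      obtain ⟨i, hi'⟩ := he3 v w hw
      exact ⟨i, Finset.mem_coe.mpr (Finset.mem_univ _), hi'⟩
    · intro i _
      rfl
  rw [hsum, ← Int.even_coe_nat]
  push_cast
  have h5 : (2 : ℤ) ∣ ∑ i : Fin 4, (y i - bit (sw G v (e (v, i)).1 q p)) :=
    Finset.dvd_sum fun i _ => hy2 i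
  rw [Finset.sum_sub_distrib] at h5
  rw [even_iff_two_dvd]
  have h7 := (dvd_add hz2 h5)
  have h8 : (z - (bit G : ℤ)) + (∑ i, y i - ∑ i : Fin 4, (bit (sw G v (e (v, i)).1 q p) : ℤ)) =
      -((bit G : ℤ) + ∑ i : Fin 4, (bit (sw G v (e (v, i)).1 q p) : ℤ)) := by
    linear_combination key2
  rw [h8] at h7
  exact (dvd_neg).mp h7

end PP
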