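import Pool.Agent.helper57.PP.Spec

set_option autoImplicit false

namespace Pool.Agent.helper57.PP

open Finset

/-- parity at a vertex -/
theorem DST_parity {W : Type} [DecidableEq W] {S : Finset (Finset W)} (hc : ∀ t ∈ S, t.card = 3)
    {v : W} {e1 e2 : Finset W} (h1v : v ∈ e1) (h2v : v ∈ e2) (h12 : e1 ≠ e2)
    (ho : ∀ e : Finset W, e.card = 2 → v ∈ e → e ≠ e1 → e ≠ e2 → ¬ Odd (cof S e).card)
    (ho1 : Odd (cof S e1).card) (hc1 : e1.card = 2) (hc2 : e2.card = 2) :
    Odd (cof S e2).card := by
  by_contra ho2
  have hev := evenSet_bd hc v
  unfold dg at hev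
  have : (bd S).filter (fun e => v ∈ e) = {e1} := by
    ext e
    rw [mem_filter, mem_bd, mem_singleton]
    constructor
    · rintro ⟨⟨h1, h2⟩, h3⟩
      by_contra hne
      by_cases he2 : e = e2
      · rw [he2] at h2
        exact ho2 h2
      · exact ho e h1 h3 hne he2 h2
    · rintro rfl
      exact ⟨⟨hc1, ho1⟩, h1v⟩
  rw [this, card_singleton] at hev
  exact absurd hev (by decide)

theorem DST (h1 : HS_stmt) (h2 : SC_stmt) (h3 : ISO_stmt) (h4 : ZT_stmt) : DST_stmt := by
  intro W _ G σ m p A hD hG hH
  obtain ⟨hs1, hs2, hs3, -, -, hs6, -⟩ := h1 W G σ m p A hD hG hH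
  obtain ⟨-, iso2, iso3, -, -, -⟩ := h3 W G σ m p hD hG
  obtain ⟨-, -, z3, z4, z5, z6, -⟩ := h4 W m p hG.m3 iso2 iso3
  have hsc := h2 W G hD.surf
  intro v S hS hne hall
  have hAG : cof A {v} ⊆ cof G {v} := cof_mono hH.sub _
  by_cases hv : ∀ i, v ≠ p i
  · -- inner vertex
    have hall' : ∀ e : Finset W, e.card = 2 → v ∈ e → cof S e = ∅ ∨ cof S e = cof G e := by
      intro e he hve
      have hz : e ∉ zt m p := by
        intro hz
        obtain ⟨i, -, hi⟩ := z4 e hz v hve
        exact hv i hi
      rcases hall e he hve with h | h
      · exact Or.inl h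
      · rcases hs1 e he hz with h' | h'
        · exact Or.inl (h.trans h')
        · exact Or.inr (h.trans h')
    have h := hsc v S (hS.trans hAG) hne hall'
    exact Subset.antisymm hS (by rw [h]; exact hAG)
  · push Not at hv
    obtain ⟨i, hi⟩ := hv
    set e1 : Finset W := {p i, p (i + 1)} with he1
    set e2 : Finset W := {p i, p (i + 2 * m - 1)} with he2
    have hz1 : e1 ∈ zt m p := z3 i
    have hz2 : e2 ∈ zt m p := by
      have h := z3 (i + 2 * m - 1)
      have hm := hG.m3
      have e : i + 2 * m - 1 + 1 = i + 2 * m := by omega
      rw [e, iso2 i, Finset.pair_comm] at h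
      exact h
    have hv1 : v ∈ e1 := by rw [he1, hi]; simp
    have hv2 : v ∈ e2 := by rw [he2, hi]; simp
    have hne12 : e1 ≠ e2 := z6 i
    have hzt : ∀ e ∈ zt m p, v ∈ e → e = e1 ∨ e = e2 := by
      intro e he hve
      rw [hi] at hve
      exact z5 i e he hve
    have hcardz : ∀ e ∈ zt m p, e.card = 2 := by
      intro e he
      have hpos : (cof A e).Nonempty := by
        rw [← card_pos, (hs2 e he).1]
        exact one_pos
      unfold zt at he
      rw [mem_image] at he
      obtain ⟨j, -, rfl⟩ := he
      exact (mem_edges.1 (hs6 j).2).1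
    have hA1 := (hs2 e1 hz1).1
    have hA2 := (hs2 e2 hz2).1
    have hG1 := (hs2 e1 hz1).2
    have hcS : ∀ t ∈ S, t.card = 3 := by
      intro t ht
      exact hD.surf.card3 t (hH.sub (mem_cof.1 (hS ht)).1)
    -- other edges have an even number of triangles of S
    have heven : ∀ e : Finset W, e.card = 2 → v ∈ e → e ≠ e1 → e ≠ e2 →
        (cof S e = ∅ ∨ cof S e = cof G e) := by
      intro e he hve h1' h2'
      have hz : e ∉ zt m p := by
        intro hz
        rcases hzt e hz hve with h | h
        · exact h1' h
        · exact h2' h
      rcases hall e he hve with h | h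
      · exact Or.inl h
      · rcases hs1 e he hz with h' | h'
        · exact Or.inl (h.trans h')
        · exact Or.inr (h.trans h')
    have hGeven : ∀ e : Finset W, e.card = 2 → ¬ Odd (cof G e).card := by
      intro e he
      by_cases h : e ∈ edges G
      · rw [hD.surf.two e h]
        decide
      · rw [edges_iff_cof_nonempty he, not_nonempty_iff_eq_empty] at h
        rw [h, card_empty]
        decide
    have hnodd : ∀ e : Finset W, e.card = 2 → v ∈ e → e ≠ e1 → e ≠ e2 →
        ¬ Odd (cof S e).card := by
      intro e he hve h1' h2'
      rcases heven e he hve h1' h2' with h | h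
      · rw [h, card_empty]
        decide
      · rw [h]
        exact hGeven e he
    have hS1 := hall e1 (hcardz e1 hz1) hv1
    have hS2 := hall e2 (hcardz e2 hz2) hv2
    -- a contradiction criterion
    have hcrit : ∀ S' : Finset (Finset W), S' ⊆ cof A {v} → S'.Nonempty → cof S' e1 = ∅ →
        (∀ e : Finset W, e.card = 2 → v ∈ e → cof S' e = ∅ ∨ cof S' e = cof G e) → False := by
      intro S' hS' hne' h0 hall'
      have h := hsc v S' (hS'.trans hAG) hne' hall'
      have h5 : cof S' e1 = cof G e1 := by rw [h, cof_cof G hv1]
      rw [h0] at h5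
      rw [← h5, card_empty] at hG1
      exact absurd hG1 (by decide)
    rcases hS1 with hS1 | hS1
    · -- none at e1, so none at e2
      exfalso
      have hS2' : cof S e2 = ∅ := by
        rcases hS2 with h | h
        · exact h
        · exfalso
          have ho2 : Odd (cof S e2).card := by
            rw [h, hA2]
            decide
          have ho1 := DST_parity hcS hv2 hv1 (Ne.symm hne12)
            (fun e he hve h2' h1' => hnodd e he hve h1' h2') ho2 (hcardz e2 hz2) (hcardz e1 hz1)
          rw [hS1, card_empty] at ho1
          exact absurd ho1 (by decide)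
      refine hcrit S hS hne hS1 ?_
      intro e he hve
      by_cases h1' : e = e1
      · rw [h1']
        exact Or.inl hS1
      · by_cases h2' : e = e2
        · rw [h2']
          exact Or.inl hS2'
        · exact heven e he hve h1' h2'
    · -- both
      have hS2' : cof S e2 = cof A e2 := by
        rcases hS2 with h | h
        · exfalso
          have ho1 : Odd (cof S e1).card := by
            rw [hS1, hA1]
            decide
          have ho2 := DST_parity hcS hv1 hv2 hne12 hnodd ho1 (hcardz e1 hz1) (hcardz e2 hz2)
          rw [h, card_empty] at ho2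
          exact absurd ho2 (by decide)
        · exact h
      refine Subset.antisymm hS ?_
      rw [← sdiff_eq_empty_iff_subset, ← not_nonempty_iff_eq_empty]
      intro hne'
      have hcof : ∀ e : Finset W, v ∈ e → cof (cof A {v} \ S) e = cof A e \ cof S e := by
        intro e hve
        rw [cof_sdiff, cof_cof A hve]
      refine hcrit _ sdiff_subset hne' ?_ ?_
      · rw [hcof e1 hv1, hS1, sdiff_self]
        rfl
      · intro e he hve
        rw [hcof e hve]
        by_cases h1' : e = e1
        · rw [h1', hS1, sdiff_self]
          exact Or.inl rfl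
        · by_cases h2' : e = e2
          · rw [h2', hS2', sdiff_self]
            exact Or.inl rfl
          · have hz : e ∉ zt m p := by
              intro hz
              rcases hzt e hz hve with h | h
              · exact h1' h
              · exact h2' h
            rcases hall e he hve with h | h
            · rw [h, sdiff_empty]
              exact hs1 e he hz
            · rw [h, sdiff_self]
              exact Or.inl rfl

end Pool.Agent.helper57.PP
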